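import Mathlib

/-!
# There are no perfect `s`-bases of size `m` in finite abelian groups when `s, m ≥ 2`

Put `B = A ∪ {0}` (as a family with `m + 1` members). If `A` is a perfect `s`-basis, then every
element of `G` is the sum of exactly one multiset of `s` members of `B`. Fix members `a ≠ j`. For
`i ≠ j` let `v_i` be the multiset of size `s` with sum `s b_a + b_i - b_j`. One checks that the
`v_i` are pairwise disjoint and do not contain `a`, so that each `v_i` is a multiple of one member
and every `k ≠ a` occurs: `s (b_k - b_a) = b_i - b_j` for some `i ≠ j`. Two values of `j` then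
contradict the uniqueness of sums of two members.
-/

set_option autoImplicit false

namespace Pool.Agent.Results.MP_acd90d_co.NoPerfectBases

/-- `[0,s]A`: the set of all sums of at most `s` elements of `A`, repetitions allowed (the
coefficient of `a ∈ A` is the nonnegative integer `c a`). -/
def sumsUpTo {G : Type*} [AddCommGroup G] (A : Finset G) (s : ℕ) : Set G :=
  {g | ∃ c : G → ℕ, ∑ a ∈ A, c a ≤ s ∧ ∑ a ∈ A, c a • a = g}

/-- `A` is a perfect `s`-basis of `G`: `[0,s]A = G` and the order of `G` is the number
`C(m + s, s)` of coefficient vectors, `m = |A|`. -/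
def IsPerfectBasis {G : Type*} [AddCommGroup G] (A : Finset G) (s : ℕ) : Prop :=
  sumsUpTo A s = Set.univ ∧ Nat.card G = (A.card + s).choose s

section core

variable {ι G : Type*} [AddCommGroup G] (b : ι → G)

/-- the sum of a multiset of members of the family `b` -/
def φ : Multiset ι →+ G := Multiset.sumAddMonoidHom.comp (Multiset.mapAddMonoidHom b)

lemma φ_cons (i : ι) (u : Multiset ι) : φ b (i ::ₘ u) = b i + φ b u := by
  simp [φ]

lemma φ_replicate (n : ℕ) (i : ι) : φ b (Multiset.replicate n i) = n • b i := by
  simp [φ]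

lemma φ_singleton (i : ι) : φ b {i} = b i := by
  simp [φ]

variable {b}

lemma core [Fintype ι] [DecidableEq ι] {s : ℕ} (hs : 2 ≤ s) (hι : 3 ≤ Fintype.card ι)
    (h1 : ∀ g : G, ∃ u : Multiset ι, u.card = s ∧ φ b u = g)
    (h2 : ∀ u v : Multiset ι, u.card = s → v.card = s → φ b u = φ b v → u = v) : False := by
  -- uniqueness of sums of two members
  have pair : ∀ i j k l : ι, b i + b j = b k + b l → k = i ∨ k = j := by
    intro i j k l h
    have := h2 (i ::ₘ j ::ₘ Multiset.replicate (s - 2) i)
      (k ::ₘ l ::ₘ Multiset.replicate (s - 2) i) (by simp; omega) (by simp; omega) (by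
        rw [φ_cons, φ_cons, φ_cons, φ_cons, ← add_assoc, ← add_assoc, h])
    have hk : k ∈ i ::ₘ j ::ₘ Multiset.replicate (s - 2) i := by
      rw [this]; exact Multiset.mem_cons_self _ _
    rw [Multiset.mem_cons, Multiset.mem_cons, Multiset.mem_replicate] at hk
    tauto
  -- two multisets of size `s + 1` with equal sums are equal or disjoint
  have claim1 : ∀ u w : Multiset ι, u.card = s + 1 → w.card = s + 1 → φ b u = φ b w → u ≠ w →
      ∀ x, x ∈ u → x ∉ w := by
    intro u w hu hw h hne x hxu hxw
    obtain ⟨u', rfl⟩ := Multiset.exists_cons_of_mem hxu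
    obtain ⟨w', rfl⟩ := Multiset.exists_cons_of_mem hxw
    rw [φ_cons, φ_cons] at h
    rw [Multiset.card_cons] at hu hw
    exact hne (by rw [h2 u' w' (by omega) (by omega) (add_left_cancel h)])
  -- two different multisets of size `s + 2` with equal sums have at most one common member
  have claim3 : ∀ u w : Multiset ι, u.card = s → w.card = s → ∀ x y : ι,
      φ b (x ::ₘ y ::ₘ u) = φ b (x ::ₘ y ::ₘ w) → u = w := by
    intro u w hu hw x y h
    simp only [φ_cons] at h
    exact h2 u w hu hw (add_left_cancel (add_left_cancel h))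
  -- the main relation
  have main : ∀ a j : ι, a ≠ j → ∀ k : ι, k ≠ a → ∃ i : ι, i ≠ j ∧
      s • b k = s • b a + b i - b j := by
    intro a j haj
    choose v hvc hvs using fun i : ι => h1 (s • b a + b i - b j)
    -- the sum of `v i` together with `b j`
    have hw : ∀ i, φ b (j ::ₘ v i) = φ b (i ::ₘ Multiset.replicate s a) := by
      intro i
      rw [φ_cons, φ_cons, φ_replicate, hvs]
      abel
    have hdis : ∀ i, i ≠ j → ∀ x, x ∈ i ::ₘ Multiset.replicate s a → x ∉ j ::ₘ v i := by
      intro i hij
      refine claim1 _ _ (by simp) (by simp [hvc]) (hw i).symm ?_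
      intro he
      have : j ∈ i ::ₘ Multiset.replicate s a := by
        rw [he]; exact Multiset.mem_cons_self _ _
      rw [Multiset.mem_cons, Multiset.mem_replicate] at this
      rcases this with h | ⟨-, h⟩
      · exact hij h.symm
      · exact haj h.symm
    have hva : ∀ i, i ≠ j → a ∉ v i := by
      intro i hij h
      refine hdis i hij a ?_ (Multiset.mem_cons_of_mem h)
      exact Multiset.mem_cons_of_mem (Multiset.mem_replicate.2 ⟨by omega, rfl⟩)
    have hvi : ∀ i, i ≠ j → i ∉ v i := by
      intro i hij h
      exact hdis i hij i (Multiset.mem_cons_self _ _) (Multiset.mem_cons_of_mem h)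
    -- disjointness of the `v i`
    have hvd : ∀ i i', i ≠ j → i' ≠ j → i ≠ i' → ∀ x, x ∈ v i → x ∉ v i' := by
      intro i i' hij hi'j hii' x hx hx'
      obtain ⟨p, hp⟩ := Multiset.exists_cons_of_mem hx
      obtain ⟨q, hq⟩ := Multiset.exists_cons_of_mem hx'
      have hpc : p.card + 1 = s := by rw [← hvc i, hp, Multiset.card_cons]
      have hqc : q.card + 1 = s := by rw [← hvc i', hq, Multiset.card_cons]
      have h : φ b (j ::ₘ x ::ₘ i' ::ₘ p) = φ b (j ::ₘ x ::ₘ i ::ₘ q) := by
        have e1 := hw i
        have e2 := hw i'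
        rw [hp] at e1
        rw [hq] at e2
        simp only [φ_cons] at e1 e2 ⊢
        have e3 : b j + (b x + (b i' + φ b p)) = b i' + (b j + (b x + φ b p)) := by abel
        have e4 : b j + (b x + (b i + φ b q)) = b i + (b j + (b x + φ b q)) := by abel
        rw [e3, e4, e1, e2]
        abel
      have := claim3 (i' ::ₘ p) (i ::ₘ q) (by simpa using hpc) (by simpa using hqc) j x h
      have hi : i ∈ i' ::ₘ p := by rw [this]; exact Multiset.mem_cons_self _ _
      rw [Multiset.mem_cons] at hi
      rcases hi with hi | hi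
      · exact hii' hi
      · exact hvi i hij (by rw [hp]; exact Multiset.mem_cons_of_mem hi)
    -- choose a member of each `v i`
    have hne : ∀ i, ∃ x, x ∈ v i := fun i =>
      Multiset.card_pos_iff_exists_mem.1 (by rw [hvc]; omega)
    choose f hf using hne
    let F : {i // i ≠ j} → {k // k ≠ a} := fun i =>
      ⟨f i.1, fun h => hva i.1 i.2 (h ▸ hf i.1)⟩
    have hFi : Function.Injective F := by
      intro i i' h
      by_contra hne
      have h' : f i.1 = f i'.1 := congrArg Subtype.val h
      exact hvd i.1 i'.1 i.2 i'.2 (fun e => hne (Subtype.ext e)) (f i.1) (hf i.1)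
        (h' ▸ hf i'.1)
    have hcard : Fintype.card {i // i ≠ j} = Fintype.card {k // k ≠ a} := by
      rw [Fintype.card_subtype_compl, Fintype.card_subtype_compl, Fintype.card_subtype_eq,
        Fintype.card_subtype_eq]
    have hFs : Function.Surjective F :=
      ((Fintype.bijective_iff_injective_and_card F).2 ⟨hFi, hcard⟩).2
    intro k hk
    obtain ⟨i, hi⟩ := hFs ⟨k, hk⟩
    have hik : f i.1 = k := congrArg Subtype.val hi
    have hrep : v i.1 = Multiset.replicate s k := by
      rw [Multiset.eq_replicate]
      refine ⟨hvc _, fun x hx => ?_⟩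
      have hxa : x ≠ a := fun h => hva i.1 i.2 (h ▸ hx)
      obtain ⟨i', hi'⟩ := hFs ⟨x, hxa⟩
      have hi'x : f i'.1 = x := congrArg Subtype.val hi'
      by_cases he : i.1 = i'.1
      · rw [← hi'x, ← he, hik]
      · exact absurd hx (hvd i'.1 i.1 i'.2 i.2 (Ne.symm he) x (hi'x ▸ hf i'.1))
    refine ⟨i.1, i.2, ?_⟩
    rw [← φ_replicate, ← hrep, hvs]
  -- conclusion with three different members
  obtain ⟨a, j, j', haj, haj', hjj'⟩ := (Fintype.two_lt_card_iff (α := ι)).1 (by omega)
  obtain ⟨i, hij, h⟩ := main a j haj j (Ne.symm haj)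
  obtain ⟨i', hij', h'⟩ := main a j' haj' j (Ne.symm haj)
  have e : b i + b j' = b j + b i' := by
    have := h.symm.trans h'
    have h3 : b i - b j = b i' - b j' := by
      have e1 : s • b a + b i - b j = s • b a + (b i - b j) := by abel
      have e2 : s • b a + b i' - b j' = s • b a + (b i' - b j') := by abel
      rw [e1, e2] at this
      exact add_left_cancel this
    rw [sub_eq_sub_iff_add_eq_add] at h3
    rw [h3, add_comm]
  rcases pair i j' j i' e with h4 | h4
  · exact hij h4.symm
  · exact hjj' h4

end core

lemma exists_multiset {G : Type*} [AddCommGroup G] {A : Finset G} {s : ℕ} {g : G}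
    (hg : g ∈ sumsUpTo A s) :
    ∃ u : Multiset (Option A), u.card = s ∧ φ (fun i : Option A => i.elim 0 (fun a => (a : G))) u
      = g := by
  obtain ⟨c, hc, hcs⟩ := hg
  refine ⟨∑ a : A, c a • {some a} + (s - ∑ a ∈ A, c a) • {none}, ?_, ?_⟩
  · rw [Multiset.card_add, Multiset.card_sum, Multiset.card_nsmul]
    simp only [Multiset.card_nsmul, Multiset.card_singleton, mul_one]
    rw [Finset.sum_coe_sort A (fun a => c a)]
    omega
  · rw [map_add, map_sum]
    simp only [map_nsmul, φ_singleton, Option.elim_some, Option.elim_none, smul_zero, add_zero]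
    rw [Finset.sum_coe_sort A (fun a => c a • a), hcs]

/-- **Theorem.** For `s ≥ 2` and `m ≥ 2` no finite abelian group has a perfect `s`-basis of size
`m`. -/
theorem result : ∀ s m : ℕ, 2 ≤ s → 2 ≤ m → ∀ (G : Type*) [AddCommGroup G] [Finite G]
    (A : Finset G), A.card = m → ¬ IsPerfectBasis A s := by
  classical
  intro s m hs hm G _ _ A hA hP
  obtain ⟨h1, h2⟩ := hP
  have : Fintype G := Fintype.ofFinite G
  set b : Option A → G := fun i => i.elim 0 (fun a => (a : G)) with hb
  have hcard : Fintype.card (Option A) = m + 1 := by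
    rw [Fintype.card_option, Fintype.card_coe, hA]
  have hsur : ∀ g : G, ∃ u : Multiset (Option A), u.card = s ∧ φ b u = g := by
    intro g
    exact exists_multiset (by rw [h1]; exact Set.mem_univ g)
  let F : Sym (Option A) s → G := fun u => φ b (u : Multiset (Option A))
  have hF : Function.Surjective F := by
    intro g
    obtain ⟨u, hu, hg⟩ := hsur g
    exact ⟨⟨u, hu⟩, hg⟩
  have hFc : Fintype.card (Sym (Option A) s) = Fintype.card G := by
    rw [Sym.card_sym_eq_choose, hcard, ← Nat.card_eq_fintype_card, h2, hA,
      show m + 1 + s - 1 = m + s by omega]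
  have hFi : Function.Injective F :=
    ((Fintype.bijective_iff_surjective_and_card F).2 ⟨hF, hFc⟩).1
  refine core (b := b) hs (by omega) hsur ?_
  intro u v hu hv h
  have := @hFi ⟨u, hu⟩ ⟨v, hv⟩ h
  exact congrArg Subtype.val this

end Pool.Agent.Results.MP_acd90d_co.NoPerfectBases
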